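import Pool.Agent.H73.TS.TargetsB

/-!
Totally separable packings: from counting to the two densities.
-/

open MeasureTheory Set Metric Filter
open scoped ENNReal Topology Pointwise

namespace Pool.Agent.H34.TS

open Pool.Agent.H73.TS

/-- volume of a translate -/
theorem vol_tr {d : ℕ} (K : Set (E d)) (t : E d) :
    volume ((fun x => t + x) '' K) = volume K := by
  have h : (fun x => t + x) '' K = t +ᵥ K := rfl
  rw [h, measure_vadd]

/-- a set of translates whose scaled count is finite is finite -/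
theorem fin_of_lt {d : ℕ} (S : Set (E d)) (V : ℝ≥0∞) (hV : V ≠ ⊤)
    (h : ((S.encard : ℕ∞) : ℝ≥0∞) / V < ⊤) : S.Finite := by
  by_contra hS
  have h1 : S.encard = ⊤ := Set.encard_eq_top hS
  rw [h1] at h
  simp only [ENat.toENNReal_top] at h
  rw [ENNReal.top_div_of_ne_top hV] at h
  exact lt_irrefl _ h

/-- finite sets: the cardinal as an extended real -/
theorem enc_fin {d : ℕ} (S : Set (E d)) (hS : S.Finite) :
    ((S.encard : ℕ∞) : ℝ≥0∞) = ((hS.toFinset.card : ℕ) : ℝ≥0∞) := by
  rw [hS.encard_eq_coe_toFinset_card]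
  rfl

/-- the union of the translates, finitely many -/
theorem vol_union {d : ℕ} (K S : Set (E d)) (hS : S.Finite) :
    volume (⋃ t ∈ S, (fun x => t + x) '' K) ≤ volume K * ((S.encard : ℕ∞) : ℝ≥0∞) := by
  have h1 : (⋃ t ∈ S, (fun x => t + x) '' K) = ⋃ t ∈ hS.toFinset, (fun x => t + x) '' K := by
    simp
  rw [h1, enc_fin S hS]
  refine (measure_biUnion_finset_le _ _).trans ?_
  rw [Finset.sum_congr rfl (fun t _ => vol_tr K t)]
  rw [Finset.sum_const, nsmul_eq_mul, mul_comm]

/-- the sum of the volumes of the translates, finitely many -/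
theorem vol_sum {d : ℕ} (K : Set (E d)) (p : E d → Prop) (hS : {t : E d | p t}.Finite) :
    (∑' t : {t : E d // p t}, volume ((fun x => (t : E d) + x) '' K)) =
      volume K * ((({t : E d | p t}).encard : ℕ∞) : ℝ≥0∞) := by
  have h0 : ∀ t : {t : E d // p t}, volume ((fun x => (t : E d) + x) '' K) = volume K :=
    fun t => vol_tr K t
  rw [tsum_congr h0, enc_fin _ hS]
  have : Finite {t : E d // p t} := hS
  have : Fintype {t : E d // p t} := Fintype.ofFinite _
  rw [tsum_fintype, Finset.sum_const, nsmul_eq_mul, mul_comm]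
  congr 2
  rw [Finset.card_univ, ← Set.ncard_eq_toFinset_card _ hS, ← Nat.card_eq_fintype_card]
  rfl

/-- the common limit argument -/
theorem lim_arg (A : ℝ≥0∞) (hA : A ≠ ⊤) (q : ℝ≥0∞) (hq : q ≠ ⊤) (c u : ℝ → ℝ≥0∞)
    (h : limsup c atTop ≤ q) (hu : ∀ᶠ R in atTop, c R < ⊤ → u R ≤ A * c R) :
    limsup u atTop ≤ A * q := by
  have h1 : ∀ᶠ R in atTop, c R < ⊤ :=
    eventually_lt_of_limsup_lt (lt_of_le_of_lt h (lt_top_iff_ne_top.2 hq))
  have h2 : ∀ᶠ R in atTop, u R ≤ A * c R := by
    filter_upwards [h1, hu] with R hR hR'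
    exact hR' hR
  refine (limsup_le_limsup h2).trans ?_
  rw [ENNReal.limsup_const_mul_of_ne_top hA]
  exact mul_le_mul_right h A

theorem cube_closed (d : ℕ) (r : ℝ) : IsClosed (Cube d r) := by
  have : Cube d r = ⋂ i : Fin d, {x : E d | |x i| ≤ r} := by
    ext x; simp [Cube]
  rw [this]
  refine isClosed_iInter fun i => ?_
  exact isClosed_le (by fun_prop) continuous_const

theorem cube_compact (d : ℕ) : IsCompact (Cube d 1) := by
  refine Metric.isCompact_of_isClosed_isBounded (cube_closed d 1) ?_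
  refine (Metric.isBounded_closedBall (x := (0 : E d)) (r := Real.sqrt d)).subset ?_
  intro x hx
  rw [mem_closedBall_zero_iff, EuclideanSpace.norm_eq]
  apply Real.sqrt_le_sqrt
  have : ∀ i : Fin d, ‖x i‖ ^ 2 ≤ 1 := fun i => by
    have h := hx i
    rw [Real.norm_eq_abs]
    have h0 := abs_nonneg (x i)
    nlinarith
  calc ∑ i, ‖x i‖ ^ 2 ≤ ∑ _i : Fin d, (1 : ℝ) := Finset.sum_le_sum fun i _ => this i
    _ = d := by simp

theorem cube_convex (d : ℕ) (r : ℝ) : Convex ℝ (Cube d r) := by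
  intro x hx y hy a b ha hb hab i
  have h1 := hx i
  have h2 := hy i
  have h3 : (a • x + b • y) i = a * x i + b * y i := by simp
  rw [h3]
  calc |a * x i + b * y i| ≤ |a * x i| + |b * y i| := abs_add_le _ _
    _ = a * |x i| + b * |y i| := by rw [abs_mul, abs_mul, abs_of_nonneg ha, abs_of_nonneg hb]
    _ ≤ a * r + b * r := by
      exact add_le_add (mul_le_mul_of_nonneg_left h1 ha) (mul_le_mul_of_nonneg_left h2 hb)
    _ = r := by rw [← add_mul, hab, one_mul]

theorem cube_int (d : ℕ) : (0 : E d) ∈ interior (Cube d 1) := by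
  refine mem_interior.2 ⟨ball 0 1, ?_, isOpen_ball, mem_ball_self one_pos⟩
  intro x hx i
  rw [mem_ball_zero_iff] at hx
  have : ‖x i‖ ≤ ‖x‖ := PiLp.norm_apply_le x i
  rw [Real.norm_eq_abs] at this
  linarith

theorem cube_scale (d : ℕ) (R : ℝ) (hR : 0 < R) :
    (fun x => R • x) '' Cube d 1 = Cube d R := by
  ext y
  constructor
  · rintro ⟨x, hx, rfl⟩ i
    have h1 := hx i
    have h2 : (R • x) i = R * x i := by simp
    simp only [h2]
    rw [abs_mul, abs_of_pos hR]
    nlinarith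
  · intro hy
    refine ⟨R⁻¹ • y, ?_, ?_⟩
    · intro i
      have h1 := hy i
      have h2 : (R⁻¹ • y) i = R⁻¹ * y i := by simp
      rw [h2, abs_mul, abs_of_pos (inv_pos.2 hR)]
      calc R⁻¹ * |y i| ≤ R⁻¹ * R := mul_le_mul_of_nonneg_left h1 (inv_pos.2 hR).le
        _ = 1 := inv_mul_cancel₀ hR.ne'
    · show R • R⁻¹ • y = y
      rw [smul_smul, mul_inv_cancel₀ hR.ne', one_smul]

theorem cube_vol (d : ℕ) (R : ℝ) (hR : 0 < R) : volume (Cube d R) ≠ ⊤ := by
  rw [← cube_scale d R hR]
  exact ((cube_compact d).image (by fun_prop)).measure_lt_top.ne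

theorem ball_scale (d : ℕ) (R : ℝ) (hR : 0 < R) :
    (fun x => R • x) '' closedBall (0 : E d) 1 = closedBall (0 : E d) R := by
  have := smul_unitClosedBall_of_nonneg (E := E d) hR.le
  rw [← this]
  rfl

/-- from counting to the two densities (finite bound) -/
theorem den' (d : ℕ) (K T : Set (E d)) (q : ℝ≥0∞) (hd : 1 ≤ d) (hq : q ≠ ⊤)
    (hK : IsCompact K)
    (h : ∀ Om : Set (E d), IsCompact Om → Convex ℝ Om → (0 : E d) ∈ interior Om →
      Filter.limsup (fun R : ℝ =>
        (({t ∈ T | (((fun x => t + x) '' K) ∩ ((fun x => R • x) '' Om)).Nonempty}.encard : ℕ∞)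
          : ℝ≥0∞) / volume ((fun x => R • x) '' Om)) Filter.atTop ≤ q) :
    upDens K T ≤ volume K * q ∧ upDensC K T ≤ volume K * q := by
  have : Nontrivial (E d) := by
    have : Nonempty (Fin d) := ⟨⟨0, hd⟩⟩
    infer_instance
  have hKt : volume K ≠ ⊤ := hK.measure_lt_top.ne
  constructor
  · have h1 := h (closedBall 0 1) (isCompact_closedBall 0 1) (convex_closedBall 0 1)
      (mem_interior.2 ⟨ball 0 1, ball_subset_closedBall, isOpen_ball, mem_ball_self one_pos⟩)
    refine lim_arg (volume K) hKt q hq _ _ h1 ?_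
    filter_upwards [eventually_gt_atTop 0] with R hR hc
    rw [ball_scale d R hR] at hc ⊢
    have hV : volume (closedBall (0 : E d) R) ≠ ⊤ := (isCompact_closedBall _ _).measure_lt_top.ne
    have hf := fin_of_lt _ _ hV hc
    rw [Measure.addHaar_closedBall_eq_addHaar_ball, ← mul_div_assoc]
    refine ENNReal.div_le_div_right ?_ _
    refine le_trans (measure_mono ?_) (vol_union K _ hf)
    rintro y ⟨hy1, hy2⟩
    simp only [mem_iUnion] at hy1 ⊢
    obtain ⟨t, ht, hy⟩ := hy1
    exact ⟨t, ⟨ht, ⟨y, hy, ball_subset_closedBall hy2⟩⟩, hy⟩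
  · have h1 := h (Cube d 1) (cube_compact d) (cube_convex d 1) (cube_int d)
    refine lim_arg (volume K) hKt q hq _ _ h1 ?_
    filter_upwards [eventually_gt_atTop 0] with R hR hc
    rw [cube_scale d R hR] at hc ⊢
    have hf := fin_of_lt _ _ (cube_vol d R hR) hc
    rw [← mul_div_assoc]
    refine ENNReal.div_le_div_right ?_ _
    rcases K.eq_empty_or_nonempty with hKe | ⟨x0, hx0⟩
    · subst hKe
      simp
    · have hsub : {t : E d | t ∈ T ∧ (fun x => t + x) '' K ⊆ Cube d R} ⊆
          {t ∈ T | (((fun x => t + x) '' K) ∩ Cube d R).Nonempty} := by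
        rintro t ⟨ht, hs⟩
        exact ⟨ht, ⟨t + x0, ⟨x0, hx0, rfl⟩, hs ⟨x0, hx0, rfl⟩⟩⟩
      rw [vol_sum K (fun t => t ∈ T ∧ (fun x => t + x) '' K ⊆ Cube d R) (hf.subset hsub)]
      refine mul_le_mul_right ?_ _
      exact ENat.toENNReal_le.2 (Set.encard_le_encard hsub)

end Pool.Agent.H34.TS
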