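import Pool.Agent.H34.TS.DEN

/-!
Totally separable packings: the upper bound.
-/

open MeasureTheory Set Metric Filter
open scoped ENNReal Topology

namespace Pool.Agent.H34.TS

open Pool.Agent.H73.TS

/-- the upper bound -/
theorem upb (hPAQ : T_PAQ) (hFIQ : T_FIQ) (hLIQ : T_LIQ) : T_UPB := by
  intro d w v K T hd hd8 hw hK hKc hKi hAs hTS
  obtain ⟨L, _, hvol, hg⟩ := hPAQ d w v hw
  have hwid : ∀ g : E d →L[ℝ] ℝ, ∃ x ∈ K, ∃ y ∈ K,
      ‖g.comp (L.symm : E d →L[ℝ] E d)‖ ≤ g x - g y := by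
    intro g
    obtain ⟨p, hp, q, hq, h⟩ := hg g
    obtain ⟨x, hx, y, hy, h'⟩ := hAs g p hp q hq
    exact ⟨x, hx, y, hy, h.trans h'⟩
  have hlim := hLIQ d L K T (by omega) hK
    (fun Q S h1 h2 h3 h4 h5 => hFIQ d L K T Q S hd hd8 hK hKc hKi hwid hTS h4 h1 h2 h3 h5)
  have hden := den' d K T _ (by omega) ENNReal.ofReal_ne_top hK hlim
  rw [mul_comm] at hvol
  rw [ENNReal.eq_inv_of_mul_eq_one_left hvol, ← div_eq_mul_inv] at hden
  exact hden

end Pool.Agent.H34.TS
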